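import Pool.Agent.KS6_13.PF.Defs

/-!
# Motives over a finite field: definitions
-/

open CategoryTheory Limits MonoidalCategory Triangulated Pretriangulated

universe u v₁ v₂ u₁ u₂ w

namespace Pool.Agent.KS6_13.CP

open Pool.Agent.KS6_13.PF
open Pool.Agent.TH133.TT (IsNondegenerate IsTensorCompatible IsTExact)
open Pool.Agent.W492.MT (Setup Weil)

/-- the category `T` is abelian -/
def IsAbelianCat (T : Type u₁) [Category.{v₁} T] [i : Preadditive T] : Prop :=
  ∃ A : Abelian T, A.toPreadditive = i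

/-- all morphisms `f` of `T` are regular -/
def IsRegularCat (T : Type u₁) [Category.{v₁} T] : Prop :=
  ∀ (X Y : T) (f : X ⟶ Y), ∃ h : Y ⟶ X, f ≫ h ≫ f = f

/-- Parshin's conjecture, and the equality of rational and numerical equivalence, for the Chow
motives. -/
def ParshinRatNum {T : Type u₁} [Category.{v₁} T] [Preadditive T] [HasShift T ℤ]
    [MonoidalCategory T] (𝒞 : ObjectProperty T) : Prop :=
  ∀ X, 𝒞 X → (∀ m : ℤ, m ≠ 0 → ∀ f : 𝟙_ T ⟶ X⟦m⟧, f = 0) ∧
    ∀ g : X ⟶ 𝟙_ T, g ≠ 0 → ∃ x : 𝟙_ T ⟶ X, x ≫ g ≠ 0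

variable {Λ : Type w}

/-- there is a t-structure as in the question for the prime `ℓ` alone -/
def HasTStructureAt (M : Motives.{v₁, v₂, u₁, u₂} Λ) (ℓ : Λ) : Prop :=
  ∃ t : TStructure M.T, IsNondegenerate t ∧ IsTensorCompatible t ∧ IsTExact (M.R ℓ) t (M.s ℓ)

/-- For a finite field: `𝒞` is the class of Chow motives and `Fr` is the Frobenius. -/
structure IsFiniteField (M : Motives.{v₁, v₂, u₁, u₂} Λ) (𝒞 : ObjectProperty M.T)
    (Fr : ∀ X : M.T, X ⟶ X) : Prop where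
  setup : Setup M.R M.s 𝒞 ℚ
  weil : Weil M.R M.s 𝒞 Fr

end Pool.Agent.KS6_13.CP
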