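import Pool.Graph.R_pool_sql_team_seeded_f72693b1.W492.PC.Fin

/-!
# Faithful realisations
-/

set_option linter.unusedSectionVars false
set_option linter.style.haveILetI false

open CategoryTheory Limits MonoidalCategory Triangulated Pretriangulated ZeroObject

namespace Pool.Agent.KS6_13.CP

open Pool.Agent.W492.MT (IsSum)

open Pool.Agent.W492 Pool.Agent.W492.TS Pool.Agent.W492.PC

universe v u v' u' w

variable {T : Type u} [Category.{v} T] [HasZeroObject T] [HasShift T ℤ] [Preadditive T]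
  [∀ n : ℤ, (shiftFunctor T n).Additive] [Pretriangulated T] [IsTriangulated T]
  [IsIdempotentComplete T]
  [MonoidalCategory T] [SymmetricCategory T] [RightRigidCategory T]
  [∀ X : T, (tensorLeft X).CommShift ℤ] [∀ X : T, (tensorLeft X).IsTriangulated]
  [MonoidalPreadditive T]
  {I : Type w} {D : I → Type u'} [∀ i, Category.{v'} (D i)]
  [∀ i, HasZeroObject (D i)]
  [∀ i, HasShift (D i) ℤ] [∀ i, Preadditive (D i)]
  [∀ i, ∀ n : ℤ, (shiftFunctor (D i) n).Additive] [∀ i, Pretriangulated (D i)]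
  [∀ i, IsTriangulated (D i)] [∀ i, MonoidalCategory (D i)] [∀ i, MonoidalPreadditive (D i)]
  {R : ∀ i, T ⥤ D i} [∀ i, (R i).CommShift ℤ] [∀ i, (R i).IsTriangulated]
  [∀ i, (R i).Monoidal] {s : ∀ i, TStructure (D i)}
  {F : Type} [Field F] [CharZero F] [Linear F T] [MonoidalLinear F T]
  {𝒞 : ObjectProperty T}

theorem isNilpotent_of_faithful (hbd : ∀ i, Bounded (s i)) (i₀ : I) (hf : (R i₀).Faithful)
    {X : T} (c : End X) (hc : ∀ n, ((s i₀).truncGELE n n).map ((R i₀).map (c : X ⟶ X)) = 0) :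
    IsNilpotent c := by
  obtain ⟨⟨b, hb⟩, ⟨a, ha⟩⟩ := hbd i₀ ((R i₀).obj X)
  have h1 := pow_eq_zero_of_H (s i₀) (b - a + 1).toNat a (Y := (R i₀).obj X)
    ((R i₀).map (c : X ⟶ X)) hc ⟨ha⟩
    (@TStructure.isLE_of_le _ _ _ _ _ _ _ (s i₀) _ b _ (by omega) ⟨hb⟩)
  refine ⟨(b - a + 1).toNat, (R i₀).map_injective ?_⟩
  have h2 : (R i₀).mapEnd X (c ^ (b - a + 1).toNat) =
      ((R i₀).mapEnd X c) ^ (b - a + 1).toNat := map_pow ((R i₀).mapEnd X) c _
  exact (h2.trans h1).trans ((R i₀).map_zero _ _).symm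

/-- lifting a Kuenneth projector to an idempotent. -/
theorem exists_idem (hbd : ∀ i, Bounded (s i)) (i₀ : I) (hf : (R i₀).Faithful)
    (hK : KunnethProjectors R s 𝒞) {X : T} (hX : 𝒞 X) (d : ℤ) : ∃ e : X ⟶ X, e ≫ e = e ∧ ∀ i,
    ((s i).truncGELE d d).map ((R i).map e) = 𝟙 _ ∧
      ∀ n, n ≠ d → ((s i).truncGELE n n).map ((R i).map e) = 0 := by
  obtain ⟨π, hπ⟩ := hK X hX d
  let φ : End X →+* ∀ j : I × ℤ, End (((s j.1).truncGELE j.2 j.2).obj ((R j.1).obj X)) :=
    RingHom.pi fun j =>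
      { ((R j.1) ⋙ (s j.1).truncGELE j.2 j.2).mapEnd X with
        map_zero' := ((R j.1) ⋙ (s j.1).truncGELE j.2 j.2).map_zero X X
        map_add' := fun f g => ((R j.1) ⋙ (s j.1).truncGELE j.2 j.2).map_add }
  have hφ : ∀ (f : X ⟶ X) j, φ f j = ((s j.1).truncGELE j.2 j.2).map ((R j.1).map f) :=
    fun f j => rfl
  obtain ⟨e, he, hee⟩ := exists_isIdempotentElem_eq_of_ker_isNilpotent φ
    (fun f hf' => isNilpotent_of_faithful hbd i₀ hf f fun n => congrFun hf' (i₀, n))
    (φ (π : X ⟶ X)) ⟨π, rfl⟩ (by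
      funext j
      change ((s j.1).truncGELE j.2 j.2).map ((R j.1).map π) ≫
        ((s j.1).truncGELE j.2 j.2).map ((R j.1).map π) = _
      rw [hφ]
      by_cases hj : j.2 = d
      · obtain ⟨i, n⟩ := j
        obtain rfl : n = d := hj
        rw [(hπ i).1]
        exact Category.comp_id _
      · rw [(hπ j.1).2 _ hj, comp_zero])
  have h1 : ∀ i n, ((s i).truncGELE n n).map ((R i).map (e : X ⟶ X)) =
      ((s i).truncGELE n n).map ((R i).map π) := fun i n => congrFun hee (i, n)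
  refine ⟨e, he, fun i => ⟨?_, fun n hn => ?_⟩⟩
  · rw [h1, (hπ i).1]
  · rw [h1, (hπ i).2 n hn]

theorem kunneth_of_faithful (hC : ChowSystem R s 𝒞)
    (hbd : ∀ i, Bounded (s i)) (hK : KunnethProjectors R s 𝒞) (i₀ : I) (hf : (R i₀).Faithful)
    (k : ℕ) (p : ℤ) {X : T} (hX : 𝒞 X) (h1 : (s i₀).IsGE ((R i₀).obj X) p)
    (h2 : (s i₀).IsLE ((R i₀).obj X) (p + k - 1)) :
    ∃ n, IsSum (fun Y => ∃ d, PureAt R s 𝒞 d Y) n X := by
  induction k generalizing X p with
  | zero =>
    refine ⟨0, ?_⟩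
    have h3 : IsZero ((R i₀).obj X) :=
      (s i₀).isZero _ (p + (0 : ℕ) - 1) p (by push_cast; omega)
    change IsZero X
    rw [IsZero.iff_id_eq_zero]
    apply (R i₀).map_injective
    exact h3.eq_of_src _ _
  | succ k ih =>
    obtain ⟨π, hidem, hπ⟩ := exists_idem hbd i₀ hf hK hX p
    have hidem' : (𝟙 X - π) ≫ (𝟙 X - π) = 𝟙 X - π := by
      rw [Preadditive.sub_comp, Category.id_comp, Preadditive.comp_sub, Category.comp_id, hidem,
        sub_self, sub_zero]
    obtain ⟨A, j, q, hjq, hqj⟩ := IsIdempotentComplete.idempotents_split X _ hidem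
    obtain ⟨B, j', q', hjq', hqj'⟩ := IsIdempotentComplete.idempotents_split X _ hidem'
    have e1 : j ≫ q' = 0 := by
      have : (j ≫ q') ≫ j' = 0 := by
        rw [Category.assoc, hqj', ← hqj, Preadditive.comp_sub, Category.comp_id,
          reassoc_of% hjq, sub_self]
      calc j ≫ q' = ((j ≫ q') ≫ j') ≫ q' := by rw [Category.assoc, hjq', Category.comp_id]
        _ = 0 := by rw [this, zero_comp]
    have e2 : j' ≫ q = 0 := by
      have : (j' ≫ q) ≫ j = 0 := by
        have h5 : π = 𝟙 X - q' ≫ j' := by rw [hqj']; abel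
        rw [Category.assoc, hqj, h5, Preadditive.comp_sub, Category.comp_id,
          reassoc_of% hjq', sub_self]
      calc j' ≫ q = ((j' ≫ q) ≫ j) ≫ q := by rw [Category.assoc, hjq, Category.comp_id]
        _ = 0 := by rw [this, zero_comp]
    have rA : Retract A X := ⟨j, q, hjq⟩
    have rB : Retract B X := ⟨j', q', hjq'⟩
    have hA : RDeg R s p A := by
      have h6 : ∀ i n, n ≠ p → IsZero (((s i).truncGELE n n).obj ((R i).obj A)) := by
        intro i n hn
        rw [IsZero.iff_id_eq_zero, ← CategoryTheory.Functor.map_id,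
          ← CategoryTheory.Functor.map_id]
        have h7 : 𝟙 A = j ≫ π ≫ q := by rw [← hqj, Category.assoc, hjq, Category.comp_id, hjq]
        rw [h7, Functor.map_comp, Functor.map_comp, Functor.map_comp, Functor.map_comp,
          (hπ i).2 n hn, zero_comp, comp_zero]
      constructor
      · intro i
        obtain ⟨⟨b, hb'⟩, -⟩ := hbd i ((R i).obj A)
        exact (isLE_of_H (s i) b ⟨hb'⟩ fun n hn => h6 i n (by omega)).le
      · intro i
        obtain ⟨-, ⟨a, ha'⟩⟩ := hbd i ((R i).obj A)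
        exact (isGE_of_H (s i) a ⟨ha'⟩ fun n hn => h6 i n (by omega)).ge
    have hB1 : (s i₀).IsGE ((R i₀).obj B) (p + 1) := by
      refine isGE_succ_of_H (s i₀) ⟨ge_retract (s i₀) (rB.map (R i₀)) h1.ge⟩ ?_
      rw [IsZero.iff_id_eq_zero, ← CategoryTheory.Functor.map_id,
        ← CategoryTheory.Functor.map_id]
      have h7 : 𝟙 B = j' ≫ (𝟙 X - π) ≫ q' := by
        rw [← hqj', Category.assoc, hjq', Category.comp_id, hjq']
      rw [h7, Functor.map_comp, Functor.map_comp, Functor.map_comp, Functor.map_comp,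
        Functor.map_sub, Functor.map_sub, (hπ i₀).1, CategoryTheory.Functor.map_id,
        CategoryTheory.Functor.map_id, sub_self, zero_comp, comp_zero]
    have hB2 : (s i₀).IsLE ((R i₀).obj B) (p + 1 + k - 1) := by
      have h8 : p + 1 + (k : ℤ) - 1 = p + ((k + 1 : ℕ) : ℤ) - 1 := by push_cast; ring
      rw [h8]
      exact ⟨le_retract (s i₀) (rB.map (R i₀)) h2.le⟩
    obtain ⟨n, hn⟩ := ih (p + 1) (hC.retract _ _ hX ⟨rB⟩) hB1 hB2
    refine ⟨n + 1, A, B, ⟨p, hC.retract _ _ hX ⟨rA⟩, hA⟩, hn, ⟨⟨biprod.lift q q',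
      biprod.desc j j', ?_, ?_⟩⟩⟩
    · rw [biprod.lift_desc, hqj, hqj']
      abel
    · ext <;> simp [hjq, hjq', e1, e2]

/-- Over a finite field: if one of the realisations is faithful, the t-structure exists. -/
theorem hasMotivicTStructure_of_faithful (h : MT.Setup R s 𝒞 F) {Fr : ∀ X : T, X ⟶ X}
    (hW : MT.Weil R s 𝒞 Fr) (i₀ : I) (hf : (R i₀).Faithful) : HasMotivicTStructure R s := by
  haveI : Nonempty I := ⟨i₀⟩
  have hC := chow_of_setup h
  have hK : Kunneth R s 𝒞 := by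
    intro X hX
    obtain ⟨⟨b, hb'⟩, ⟨a, ha⟩⟩ := h.bounded i₀ ((R i₀).obj X)
    exact kunneth_of_faithful hC h.bounded hW.projector i₀ hf (b - a + 1).toNat a hX ⟨ha⟩
      (@TStructure.isLE_of_le _ _ _ _ _ _ _ (s i₀) _ b _ (by omega) ⟨hb'⟩)
  have key := (tfae_of_chow F h.scalar h.bounded h.tensorExact h.unit_ne h.unit_simple
    h.oddFinite hC (fun _ => hK)).out 0 2
  have hcons : (R i₀).ReflectsIsomorphisms := reflects_of_isZero (R i₀) fun X hX => by
    rw [IsZero.iff_id_eq_zero]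
    apply (R i₀).map_injective
    exact hX.eq_of_src _ _
  refine key.2 ⟨hK, ?_, i₀, hcons, fun X d _ g hg => ?_⟩
  · intro X d hX m hm f
    apply (R i₀).map_injective
    rw [Functor.map_zero]
    have h1 : RDeg R s (d - m) (X⟦m⟧) := hX.2.shift (by ring)
    have h2 : RDeg R s 0 (𝟙_ T) := rdeg_unit (R := R) h.unit_simple
    exact (s i₀).zero_of_isLE_of_isGE _ 0 (d - m) (by omega) ⟨h2.1 i₀⟩ ⟨h1.2 i₀⟩
  · apply (R i₀).map_injective
    rw [hg, Functor.map_zero]

/-- If all morphisms are regular and `R i` is conservative, `R i` is faithful. -/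
theorem faithful_of_reg (H : ∀ (X Y : T) (f : X ⟶ Y), ∃ h : Y ⟶ X, f ≫ h ≫ f = f) (i : I)
    (hi : ∀ X : T, IsZero ((R i).obj X) → IsZero X) : (R i).Faithful := by
  have h0 : ∀ {X Y : T} (f : X ⟶ Y), (R i).map f = 0 → f = 0 := by
    intro X Y f hf
    obtain ⟨h, hh⟩ := H X Y f
    have he : (f ≫ h) ≫ f ≫ h = f ≫ h := by
      rw [← Category.assoc, Category.assoc f h f, hh]
    obtain ⟨A, j, q, hjq, hqj⟩ := IsIdempotentComplete.idempotents_split X _ he
    have hA : IsZero A := by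
      apply hi
      rw [IsZero.iff_id_eq_zero, ← CategoryTheory.Functor.map_id]
      have h7 : 𝟙 A = j ≫ (f ≫ h) ≫ q := by
        rw [← hqj, Category.assoc, hjq, Category.comp_id, hjq]
      rw [h7, Functor.map_comp, Functor.map_comp, Functor.map_comp, hf, zero_comp, zero_comp,
        comp_zero]
    rw [← hh, ← Category.assoc, ← hqj, hA.eq_of_tgt q 0, zero_comp, zero_comp]
  exact ⟨fun {X Y f g} hfg => sub_eq_zero.1 (h0 _ (by rw [Functor.map_sub, hfg, sub_self]))⟩

/-- Over a finite field: if all morphisms are regular, the realisations are faithful. -/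
theorem faithful_of_reg' [Nonempty I] (h : MT.Setup R s 𝒞 F) {Fr : ∀ X : T, X ⟶ X}
    (hW : MT.Weil R s 𝒞 Fr)
    (H : ∀ (X Y : T) (f : X ⟶ Y), ∃ h : Y ⟶ X, f ≫ h ≫ f = f) (i : I) : (R i).Faithful := by
  obtain ⟨t, h1, h2, h3⟩ := ((finite_field_criterion h hW).out 0 2).2 H
  obtain ⟨-, hone'⟩ := idem_of_scalar R F h.scalar i (h.unit_ne i)
  exact faithful_of_reg H i (Motivic.isZero hone' h.unit_ne ⟨h1, TensorExact.heart h2, h3⟩ i)

end Pool.Agent.KS6_13.CP
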