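import Mathlib

/-!
# Triangulated categories with kernels
-/

set_option linter.unusedSectionVars false
set_option linter.style.haveILetI false

open CategoryTheory Limits Triangulated Pretriangulated

universe v u

namespace Pool.Agent.KS6_13.CP

section
variable {T : Type u} [Category.{v} T] [Preadditive T]

/-- the kernel of a regular morphism -/
theorem hasKernel_of_reg [IsIdempotentComplete T] {X Y : T} {f : X ⟶ Y} {h : Y ⟶ X}
    (hf : f ≫ h ≫ f = f) : HasKernel f := by
  have he : (𝟙 X - f ≫ h) ≫ (𝟙 X - f ≫ h) = 𝟙 X - f ≫ h := by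
    have : (f ≫ h) ≫ f ≫ h = f ≫ h := by
      rw [← Category.assoc, Category.assoc f h f, hf]
    rw [Preadditive.sub_comp, Category.id_comp, Preadditive.comp_sub, Category.comp_id, this]
    abel
  obtain ⟨A, j, q, hjq, hqj⟩ := IsIdempotentComplete.idempotents_split X _ he
  have hj : j ≫ f = 0 := by
    have h1 : j = j ≫ (𝟙 X - f ≫ h) := by rw [← hqj, reassoc_of% hjq]
    rw [h1, Category.assoc, Preadditive.sub_comp, Category.id_comp, Category.assoc, hf, sub_self,
      comp_zero]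
  refine ⟨⟨⟨KernelFork.ofι j hj, KernelFork.IsLimit.ofι _ _ (fun g _ => g ≫ q) ?_ ?_⟩⟩⟩
  · intro W g hg
    rw [Category.assoc, hqj, Preadditive.comp_sub, Category.comp_id, reassoc_of% hg, zero_comp,
      sub_zero]
  · intro W g hg m hm
    rw [← hm, Category.assoc, hjq, Category.comp_id]

theorem hasCokernel_of_reg [IsIdempotentComplete T] {X Y : T} {f : X ⟶ Y} {h : Y ⟶ X}
    (hf : f ≫ h ≫ f = f) : HasCokernel f := by
  have he : (𝟙 Y - h ≫ f) ≫ (𝟙 Y - h ≫ f) = 𝟙 Y - h ≫ f := by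
    rw [Preadditive.sub_comp, Category.id_comp, Preadditive.comp_sub, Category.comp_id,
      Category.assoc]
    have : f ≫ h ≫ f = f := hf
    rw [this]
    abel
  obtain ⟨A, j, q, hjq, hqj⟩ := IsIdempotentComplete.idempotents_split Y _ he
  have hq : f ≫ q = 0 := by
    have h1 : q = (𝟙 Y - h ≫ f) ≫ q := by rw [← hqj, Category.assoc, hjq, Category.comp_id]
    rw [h1, Preadditive.sub_comp, Category.id_comp, Preadditive.comp_sub, Category.assoc,
      ← Category.assoc h, ← Category.assoc f, hf, sub_self]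
  refine ⟨⟨⟨CokernelCofork.ofπ q hq, CokernelCofork.IsColimit.ofπ _ _ (fun g _ => j ≫ g) ?_ ?_⟩⟩⟩
  · intro W g hg
    rw [← Category.assoc, hqj, Preadditive.sub_comp, Category.id_comp, Category.assoc, hg,
      comp_zero, sub_zero]
  · intro W g hg m hm
    rw [← hm, ← Category.assoc, hjq, Category.id_comp]

/-- a regular monomorphism splits -/
theorem retraction_of_reg {X Y : T} {f : X ⟶ Y} [Mono f] {h : Y ⟶ X}
    (hf : f ≫ h ≫ f = f) : f ≫ h = 𝟙 X := by
  rw [← cancel_mono f, Category.assoc, hf, Category.id_comp]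

theorem section_of_reg {X Y : T} {f : X ⟶ Y} [Epi f] {h : Y ⟶ X}
    (hf : f ≫ h ≫ f = f) : h ≫ f = 𝟙 Y := by
  rw [← cancel_epi f, hf, Category.comp_id]

/-- a split monomorphism is a kernel -/
theorem nonempty_normalMono {X Y : T} {f : X ⟶ Y} {h : Y ⟶ X} (hf : f ≫ h = 𝟙 X) :
    Nonempty (NormalMono f) := by
  have hw : f ≫ (𝟙 Y - h ≫ f) = 0 := by
    rw [Preadditive.comp_sub, Category.comp_id, reassoc_of% hf, sub_self]
  refine ⟨⟨Y, 𝟙 Y - h ≫ f, hw, KernelFork.IsLimit.ofι _ _ (fun g _ => g ≫ h) ?_ ?_⟩⟩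
  · intro W g hg
    rw [Preadditive.comp_sub, Category.comp_id, sub_eq_zero] at hg
    rw [Category.assoc]
    exact hg.symm
  · intro W g hg m hm
    rw [← hm, Category.assoc, hf, Category.comp_id]

theorem nonempty_normalEpi {X Y : T} {f : X ⟶ Y} {h : Y ⟶ X} (hf : h ≫ f = 𝟙 Y) :
    Nonempty (NormalEpi f) := by
  have hw : (𝟙 X - f ≫ h) ≫ f = 0 := by
    rw [Preadditive.sub_comp, Category.id_comp, Category.assoc, hf, Category.comp_id, sub_self]
  refine ⟨⟨X, 𝟙 X - f ≫ h, hw, CokernelCofork.IsColimit.ofπ _ _ (fun g _ => h ≫ g) ?_ ?_⟩⟩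
  · intro W g hg
    rw [Preadditive.sub_comp, Category.id_comp, Category.assoc, sub_eq_zero] at hg
    exact hg.symm
  · intro W g hg m hm
    rw [← hm, ← Category.assoc, hf, Category.id_comp]

end

section
variable {T : Type u} [Category.{v} T] [Preadditive T] [HasZeroObject T] [HasShift T ℤ]
  [∀ n : ℤ, (shiftFunctor T n).Additive] [Pretriangulated T]

/-- In a triangulated category with kernels all morphisms are regular. -/
theorem reg_of_hasKernels [HasKernels T] [IsIdempotentComplete T] {X Y : T} (f : X ⟶ Y) :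
    ∃ h : Y ⟶ X, f ≫ h ≫ f = f := by
  have hsm : IsSplitMono (kernel.ι f) := isSplitMono_of_mono _
  obtain ⟨r, hr⟩ : ∃ r, kernel.ι f ≫ r = 𝟙 _ := ⟨_, hsm.exists_splitMono.some.id⟩
  have he : (𝟙 X - r ≫ kernel.ι f) ≫ (𝟙 X - r ≫ kernel.ι f) = 𝟙 X - r ≫ kernel.ι f := by
    rw [Preadditive.sub_comp, Category.id_comp, Preadditive.comp_sub, Category.comp_id,
      Category.assoc, reassoc_of% hr]
    abel
  obtain ⟨A, j, q, hjq, hqj⟩ := IsIdempotentComplete.idempotents_split X _ he
  have h1 : j ≫ r = 0 := by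
    rw [← cancel_mono (kernel.ι f), zero_comp, Category.assoc]
    have h2 : j = j ≫ (𝟙 X - r ≫ kernel.ι f) := by rw [← hqj, reassoc_of% hjq]
    rw [Preadditive.comp_sub, Category.comp_id] at h2
    have h3 : j ≫ r ≫ kernel.ι f = j - (j - j ≫ r ≫ kernel.ι f) := by abel
    rw [h3, ← h2, sub_self]
  have hmono : Mono (j ≫ f) := by
    rw [Preadditive.mono_iff_cancel_zero]
    intro W x hx
    have hx' : (x ≫ j) ≫ f = 0 := by rw [Category.assoc, hx]
    have h4 : kernel.lift f (x ≫ j) hx' ≫ kernel.ι f = x ≫ j := kernel.lift_ι _ _ _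
    have h5 : kernel.lift f (x ≫ j) hx' = 0 := by
      have := congrArg (· ≫ r) h4
      simp only [Category.assoc] at this
      rw [hr, Category.comp_id, h1, comp_zero] at this
      exact this
    rw [h5, zero_comp] at h4
    rw [← Category.comp_id x, ← hjq, ← Category.assoc, ← h4, zero_comp]
  have hsm' : IsSplitMono (j ≫ f) := isSplitMono_of_mono _
  obtain ⟨s, hs⟩ : ∃ s, (j ≫ f) ≫ s = 𝟙 _ := ⟨_, hsm'.exists_splitMono.some.id⟩
  have hf : q ≫ j ≫ f = f := by
    rw [← Category.assoc, hqj, Preadditive.sub_comp, Category.id_comp, Category.assoc,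
      kernel.condition, comp_zero, sub_zero]
  refine ⟨s ≫ j, ?_⟩
  calc f ≫ (s ≫ j) ≫ f = (q ≫ j ≫ f) ≫ (s ≫ j) ≫ f := by rw [hf]
    _ = q ≫ ((j ≫ f) ≫ s) ≫ j ≫ f := by simp only [Category.assoc]
    _ = f := by rw [hs, Category.id_comp, hf]

/-- If all morphisms are regular, the triangulated category is abelian. -/
theorem exists_abelian_of_reg [IsIdempotentComplete T]
    (H : ∀ (X Y : T) (f : X ⟶ Y), ∃ h : Y ⟶ X, f ≫ h ≫ f = f) :
    ∃ A : Abelian T, A.toPreadditive = ‹Preadditive T› := by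
  haveI : HasKernels T := ⟨fun {X Y} f => by
    obtain ⟨h, hh⟩ := H X Y f
    exact hasKernel_of_reg hh⟩
  haveI : HasCokernels T := ⟨fun {X Y} f => by
    obtain ⟨h, hh⟩ := H X Y f
    exact hasCokernel_of_reg hh⟩
  haveI : IsNormalMonoCategory T := ⟨fun f => by
    obtain ⟨h, hh⟩ := H _ _ f
    exact nonempty_normalMono (retraction_of_reg hh)⟩
  haveI : IsNormalEpiCategory T := ⟨fun f => by
    obtain ⟨h, hh⟩ := H _ _ f
    exact nonempty_normalEpi (section_of_reg hh)⟩
  haveI : HasFiniteProducts T := hasFiniteProducts_of_has_binary_and_terminal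
  exact ⟨{ }, rfl⟩

end

end Pool.Agent.KS6_13.CP
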