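import Pool.Agent.KS6_13.PF.Main

/-!
# Restriction to a subset of the set of primes
-/

set_option linter.unusedSectionVars false
set_option linter.style.haveILetI false

open CategoryTheory Limits MonoidalCategory Triangulated Pretriangulated ZeroObject

universe u v₁ v₂ u₁ u₂ w w'

namespace Pool.Agent.KS6_13.PF

open Pool.Agent.TH133.TT
open Pool.Agent.W492.TS Pool.Agent.W492.PC
open Pool.Agent.W492.MT (Setup Lefschetz Weil)

variable {Λ : Type w} {Λ' : Type w'}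

/-- restriction to the realisations `R (i ℓ)`. -/
@[reducible]
def Motives.reindex (M : Motives.{v₁, v₂, u₁, u₂} Λ) (i : Λ' → Λ) :
    Motives.{v₁, v₂, u₁, u₂} Λ' where
  T := M.T
  connected := M.connected
  D := fun ℓ => M.D (i ℓ)
  unit_ne := fun ℓ => M.unit_ne (i ℓ)
  s := fun ℓ => M.s (i ℓ)
  nondegenerate := fun ℓ => M.nondegenerate (i ℓ)
  tensorCompatible := fun ℓ => M.tensorCompatible (i ℓ)
  R := fun ℓ => M.R (i ℓ)
  symmetric := M.symmetric
  scalar := M.scalar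
  bounded := fun ℓ => M.bounded (i ℓ)

/-- restriction to the realisations `R (i ℓ)`. -/
@[reducible]
def BaseChange.reindex {M M' : Motives.{v₁, v₂, u₁, u₂} Λ}
    (F : BaseChange M.toRealised M'.toRealised) (i : Λ' → Λ) :
    BaseChange (M.reindex i).toRealised (M'.reindex i).toRealised where
  P := F.P
  le_iff := fun ℓ n A => F.le_iff (i ℓ) n A
  ge_iff := fun ℓ n A => F.ge_iff (i ℓ) n A

theorem Specialises.reindex {M M' : Motives.{v₁, v₂, u₁, u₂} Λ}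
    {F : BaseChange M.toRealised M'.toRealised} (h : F.Specialises) (i : Λ' → Λ) :
    (BaseChange.reindex F i).Specialises := by
  intro A U V f g w hT
  obtain ⟨U₀, X, V₀, f₀, g₀, w₀, h1, h2, h3, h4⟩ := h A U V f g w hT
  exact ⟨U₀, X, V₀, f₀, g₀, w₀, h1, h2, fun ℓ n => h3 (i ℓ) n, fun ℓ n => h4 (i ℓ) n⟩

theorem Descends.reindex {J : Type*} {M : J → Motives.{v₁, v₂, u₁, u₂} Λ}
    {M' : Motives.{v₁, v₂, u₁, u₂} Λ} {F : ∀ j, BaseChange (M j).toRealised M'.toRealised}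
    (h : Descends F) (i : Λ' → Λ) : Descends fun j => BaseChange.reindex (F j) i := by
  intro U V f
  obtain ⟨j, U₀, V₀, f₀, h1, h2, h3⟩ := h U V f
  exact ⟨j, U₀, V₀, f₀, h1, fun ℓ n => h2 (i ℓ) n, fun ℓ n => h3 (i ℓ) n⟩

section
variable {D : Type u₂} [Category.{v₂} D] [Preadditive D] [HasZeroObject D] [HasShift D ℤ]
  [∀ n : ℤ, (shiftFunctor D n).Additive] [Pretriangulated D] [IsTriangulated D]
  [MonoidalCategory D] {s : TStructure D}

theorem ge_of_pairing (hs : IsTensorCompatible s) (hu : s.ge 0 (𝟙_ D)) {A B : D}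
    [ExactPairing A B] {d : ℤ} (hA : s.le d A) : s.ge (-d) B := by
  rw [s.ge_iff_isGE, s.isGE_iff_orthogonal (-d - 1) (-d) (by ring)]
  intro W f hW
  have h1 : s.le (-d - 1 + d) (W ⊗ A) := hs.le _ _ _ _ hW.le hA
  have h2 : ∀ g : W ⊗ A ⟶ 𝟙_ D, g = 0 := fun g =>
    s.zero_of_isLE_of_isGE g (-d - 1 + d) 0 (by omega) ⟨h1⟩ ⟨hu⟩
  have h3 : f ≫ (λ_ B).inv = 0 := by
    apply (tensorRightHomEquiv W A B (𝟙_ D)).symm.injective
    rw [h2 ((tensorRightHomEquiv W A B (𝟙_ D)).symm (f ≫ (λ_ B).inv)),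
      h2 ((tensorRightHomEquiv W A B (𝟙_ D)).symm 0)]
  rw [← cancel_mono (λ_ B).inv, h3, zero_comp]

theorem le_of_pairing (hs : IsTensorCompatible s) (hu : s.le 0 (𝟙_ D)) {A B : D}
    [ExactPairing A B] {d : ℤ} (hA : s.ge d A) : s.le (-d) B := by
  rw [s.le_iff_isLE, s.isLE_iff_orthogonal (-d) (-d + 1) rfl]
  intro Z f hZ
  have h1 : s.ge (d + (-d + 1)) (A ⊗ Z) := hs.ge _ _ _ _ hA hZ.ge
  have h2 : ∀ g : 𝟙_ D ⟶ A ⊗ Z, g = 0 := fun g =>
    s.zero_of_isLE_of_isGE g 0 (d + (-d + 1)) (by omega) ⟨hu⟩ ⟨h1⟩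
  have h3 : (ρ_ B).hom ≫ f = 0 := by
    apply (tensorLeftHomEquiv (𝟙_ D) A B Z).injective
    rw [h2 (tensorLeftHomEquiv (𝟙_ D) A B Z ((ρ_ B).hom ≫ f)),
      h2 (tensorLeftHomEquiv (𝟙_ D) A B Z 0)]
  rw [← cancel_epi (ρ_ B).hom, h3, comp_zero]

end

theorem Setup.reindex {M : Motives.{v₁, v₂, u₁, u₂} Λ} {𝒞 : ObjectProperty M.T}
    (h : Setup M.R M.s 𝒞 ℚ) (i : Λ' → Λ) :
    Setup (M.reindex i).R (M.reindex i).s 𝒞 ℚ where
  scalar := h.scalar
  bounded := fun ℓ => h.bounded (i ℓ)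
  tensorExact := fun ℓ => h.tensorExact (i ℓ)
  unit_ne := fun ℓ => h.unit_ne (i ℓ)
  unit_simple := fun ℓ => h.unit_simple (i ℓ)
  oddFinite := fun W ℓ => h.oddFinite W (i ℓ)
  one_mem := h.one_mem
  tensor_mem := h.tensor_mem
  dual_mem := h.dual_mem
  sum_mem := h.sum_mem
  retract_mem := h.retract_mem
  orth := h.orth
  gen := h.gen
  dual_deg := by
    intro X d _ hX
    constructor
    · intro ℓ
      letI : ExactPairing ((M.R (i ℓ)).obj X) ((M.R (i ℓ)).obj Xᘁ) :=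
        mapExactPairing (M.R (i ℓ)) X Xᘁ
      exact le_of_pairing (M.tensorCompatible (i ℓ)) (h.unit_simple (i ℓ)).1 (hX.2 ℓ)
    · intro ℓ
      letI : ExactPairing ((M.R (i ℓ)).obj X) ((M.R (i ℓ)).obj Xᘁ) :=
        mapExactPairing (M.R (i ℓ)) X Xᘁ
      exact ge_of_pairing (M.tensorCompatible (i ℓ)) (h.unit_simple (i ℓ)).2.1 (hX.1 ℓ)
  finRank := h.finRank
  trNil := h.trNil

theorem Lefschetz.reindex {M : Motives.{v₁, v₂, u₁, u₂} Λ} {𝒞 : ObjectProperty M.T}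
    (h : Lefschetz M.R M.s 𝒞) (i : Λ' → Λ) :
    Lefschetz (M.reindex i).R (M.reindex i).s 𝒞 := by
  intro X hX
  obtain ⟨V, c, h1, h2, h3⟩ := h X hX
  refine ⟨V, c, h1, h2, fun m => ?_⟩
  obtain ⟨J, J', φ, h4, h5, h6⟩ := h3 m
  exact ⟨J, J', φ, ⟨fun ℓ => h4.1 (i ℓ), fun ℓ => h4.2 (i ℓ)⟩, h5, fun ℓ => h6 (i ℓ)⟩

theorem Weil.reindex {M : Motives.{v₁, v₂, u₁, u₂} Λ} {𝒞 : ObjectProperty M.T}
    {Fr : ∀ X : M.T, X ⟶ X} (h : Weil M.R M.s 𝒞 Fr) (i : Λ' → Λ) :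
    Weil (M.reindex i).R (M.reindex i).s 𝒞 Fr where
  natural := h.natural
  unit := h.unit
  shift := h.shift
  weight := fun X m hX hm ℓ => h.weight X m hX hm (i ℓ)
  projector := fun X hX d => by
    obtain ⟨π, hπ⟩ := h.projector X hX d
    exact ⟨π, fun ℓ => hπ (i ℓ)⟩

theorem IsGeometric.reindex {M : Motives.{v₁, v₂, u₁, u₂} Λ} {𝒞 : ObjectProperty M.T}
    (h : IsGeometric M 𝒞) (i : Λ' → Λ) : IsGeometric (M.reindex i) 𝒞 where
  setup := Setup.reindex h.setup i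
  lefschetz := Lefschetz.reindex h.lefschetz i
  semisimple := fun ℓ => h.semisimple (i ℓ)

/-- restriction to the realisations `R (i ℓ)`. -/
@[reducible]
def ModelData.reindex {M M' : Motives.{v₁, v₂, u₁, u₂} Λ} (m : ModelData M M') (i : Λ' → Λ) :
    ModelData (M.reindex i) (M'.reindex i) where
  V := m.V.reindex i
  pull := m.pull
  push := m.push
  adj := m.adj
  fib := m.fib
  point := m.point
  gen := m.gen

/-- restriction to the realisations `R (i ℓ)`. -/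
@[reducible]
def Model.reindex {M M' : Motives.{v₁, v₂, u₁, u₂} Λ} (m : Model M M') (i : Λ' → Λ) :
    Model (M.reindex i) (M'.reindex i) where
  toModelData := m.toModelData.reindex i
  fib_deg := fun ℓ n X => m.fib_deg (i ℓ) n X
  gen_deg := fun ℓ n X => m.gen_deg (i ℓ) n X
  push_ge := fun ℓ n X => m.push_ge (i ℓ) n X
  push_zero := fun ℓ X Y f => m.push_zero (i ℓ) X Y f
  fib_faithful := fun ℓ X Y f => m.fib_faithful (i ℓ) X Y f
  gen_faithful := fun ℓ X Y f => m.gen_faithful (i ℓ) X Y f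

theorem SpreadsOut.reindex {M M' : Motives.{v₁, v₂, u₁, u₂} Λ} {𝒞 : ObjectProperty M.T}
    {𝒞' : ObjectProperty M'.T} (h : SpreadsOut M M' 𝒞 𝒞') (i : Λ' → Λ) :
    SpreadsOut (M.reindex i) (M'.reindex i) 𝒞 𝒞' where
  arrow := fun f => by
    obtain ⟨m, X, Y, g, e⟩ := h.arrow f
    exact ⟨m.reindex i, X, Y, g, e⟩
  chow := fun A hA => by
    obtain ⟨m, X, h1, h2, e⟩ := h.chow A hA
    refine ⟨m.reindex i, X, h1, fun n => ?_, e⟩
    obtain ⟨Q, q, hQ, hq⟩ := h2 n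
    exact ⟨Q, q, hQ, fun ℓ => hq (i ℓ)⟩

/-- restriction to the realisations `R (i ℓ)`. -/
@[reducible]
def System.reindex {p : ℕ} (S : System.{u, v₁, v₂, u₁, u₂} p Λ) (i : Λ' → Λ) :
    System.{u, v₁, v₂, u₁, u₂} p Λ' where
  obj := fun k _ _ => (S.obj k).reindex i
  map := fun φ => BaseChange.reindex (S.map φ) i
  faithful := fun φ => S.faithful φ
  specialises := fun φ => Specialises.reindex (S.specialises φ) i
  algebraic := Descends.reindex S.algebraic i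
  finitelyGenerated := fun K => Descends.reindex (S.finitelyGenerated K) i
  chow := fun k => S.chow k
  isGeometric := fun k => (S.isGeometric k).reindex i
  spreadsOut := fun φ => (S.spreadsOut φ).reindex i

end Pool.Agent.KS6_13.PF
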