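import Pool.Agent.KS6_13.CP.Defs
import Pool.Agent.KS6_13.CP.Reindex
import Pool.Agent.KS6_13.CP.Reg
import Pool.Agent.KS6_13.CP.Faith

/-!
# Characteristic `p`
-/

set_option linter.unusedSectionVars false
set_option linter.style.haveILetI false

open CategoryTheory Limits MonoidalCategory Triangulated Pretriangulated ZeroObject

universe u v₁ v₂ u₁ u₂ w

namespace Pool.Agent.KS6_13.CP

open Pool.Agent.KS6_13.PF
open Pool.Agent.TH133.TT (IsNondegenerate IsTensorCompatible IsTExact)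
open Pool.Agent.W492.MT (Setup Weil)

/-- Characteristic `p`. -/
theorem tfae {p : ℕ} {Λ : Type w} [Nonempty Λ] (S : System.{u, v₁, v₂, u₁, u₂} p Λ)
    (k : Type u) [Field k] [CharP k p] {𝒞 : ObjectProperty (S.obj k).T}
    {Fr : ∀ X : (S.obj k).T, X ⟶ X} (hk : IsFiniteField (S.obj k) 𝒞 Fr) :
    List.TFAE [
      ∀ (K : Type u) [Field K] [CharP K p], (S.obj K).toRealised.HasMotivicTStructure,
      ∃ (K : Type u) (_ : Field K) (_ : CharP K p) (ℓ : Λ), HasTStructureAt (S.obj K) ℓ,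
      ∀ ℓ : Λ, ((S.obj k).R ℓ).Faithful,
      ∃ ℓ : Λ, ((S.obj k).R ℓ).Faithful,
      IsAbelianCat (S.obj k).T,
      HasKernels (S.obj k).T,
      IsRegularCat (S.obj k).T,
      ParshinRatNum 𝒞] := by
  have hs := hk.setup
  have hW := hk.weil
  have key := Pool.Agent.W492.PC.finite_field_criterion hs hW
  have k02 := key.out 0 2
  have k12 := key.out 1 2
  tfae_have 8 ↔ 7 := k12
  tfae_have 7 → 1 := fun H K _ _ =>
    S.hasMotivicTStructure k K (hasMotivicTStructure_iff.2 (k02.2 H))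
  tfae_have 1 → 2 := fun H => by
    have ℓ : Λ := Classical.arbitrary Λ
    obtain ⟨t, h1, h2, h3⟩ := H k
    exact ⟨k, inferInstance, inferInstance, ℓ, t, h1, h2, h3 ℓ⟩
  tfae_have 2 → 7 := by
    rintro ⟨K, iK, cK, ℓ, t, h1, h2, h3⟩
    have h4 : ((S.reindex fun _ : Unit => ℓ).obj K).toRealised.HasMotivicTStructure :=
      ⟨t, h1, h2, fun _ => h3⟩
    have h5 := (S.reindex fun _ : Unit => ℓ).hasMotivicTStructure K k h4
    exact ((Pool.Agent.W492.PC.finite_field_criterion (Setup.reindex hs fun _ : Unit => ℓ)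
      (Weil.reindex hW fun _ : Unit => ℓ)).out 0 2).1 (hasMotivicTStructure_iff.1 h5)
  tfae_have 7 → 3 := fun H ℓ => faithful_of_reg' hs hW H ℓ
  tfae_have 3 → 4 := fun H => ⟨Classical.arbitrary Λ, H _⟩
  tfae_have 4 → 7 := fun ⟨ℓ, hℓ⟩ => k02.1 (hasMotivicTStructure_of_faithful hs hW ℓ hℓ)
  tfae_have 7 → 5 := exists_abelian_of_reg
  tfae_have 5 → 6 := by
    rintro ⟨A, hA⟩
    have h1 := A.has_kernels
    rw [hA] at h1
    exact h1
  tfae_have 6 → 7 := fun H X Y f => reg_of_hasKernels f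
  tfae_finish

end Pool.Agent.KS6_13.CP
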